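import Mathlib

/-! A measurable majorant of the Banach indicatrix with integral at most the variation. -/

set_option autoImplicit false

open Filter Topology Metric Set MeasureTheory

namespace Pool.Agent.Helper28.CN

/-- dyadic partition points -/
noncomputable def pt (n k : ℕ) : ℝ := (k : ℝ) / 2 ^ n

theorem pt_mono (n : ℕ) : Monotone (pt n) := by
  intro k l h
  unfold pt
  gcongr

theorem pt_zero (n : ℕ) : pt n 0 = 0 := by simp [pt]

theorem pt_last (n : ℕ) : pt n (2 ^ n) = 1 := by simp [pt]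

theorem piece_subset {n k : ℕ} (hk : k < 2 ^ n) : Icc (pt n k) (pt n (k + 1)) ⊆ Icc 0 1 := by
  rw [← pt_zero n, ← pt_last n]
  exact Icc_subset_Icc (pt_mono n (Nat.zero_le _)) (pt_mono n hk)

/-- number of dyadic pieces whose image contains `t` -/
noncomputable def cnt (u : ℝ → ℝ) (n : ℕ) (t : ℝ) : ENNReal :=
  ∑ k ∈ Finset.range (2 ^ n), (u '' Icc (pt n k) (pt n (k + 1))).indicator (fun _ => 1) t

theorem measurableSet_piece {u : ℝ → ℝ} (hu : ContinuousOn u (Icc 0 1)) {n k : ℕ}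
    (hk : k < 2 ^ n) : MeasurableSet (u '' Icc (pt n k) (pt n (k + 1))) :=
  ((isCompact_Icc.image_of_continuousOn (hu.mono (piece_subset hk))).isClosed).measurableSet

theorem measurable_cnt {u : ℝ → ℝ} (hu : ContinuousOn u (Icc 0 1)) (n : ℕ) :
    Measurable (cnt u n) := by
  unfold cnt
  refine Finset.measurable_sum _ fun k hk => ?_
  exact measurable_const.indicator (measurableSet_piece hu (Finset.mem_range.1 hk))

theorem volume_image_le (u : ℝ → ℝ) (s : Set ℝ) : volume (u '' s) ≤ eVariationOn u s := by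
  refine (Real.volume_le_diam _).trans ?_
  refine Metric.ediam_le ?_
  rintro _ ⟨x, hx, rfl⟩ _ ⟨y, hy, rfl⟩
  exact eVariationOn.edist_le u hx hy

theorem lintegral_cnt_le {u : ℝ → ℝ} (hu : ContinuousOn u (Icc 0 1)) (n : ℕ) :
    ∫⁻ t, cnt u n t ≤ eVariationOn u (Icc 0 1) := by
  unfold cnt
  rw [lintegral_finsetSum']
  · calc ∑ k ∈ Finset.range (2 ^ n),
          ∫⁻ t, (u '' Icc (pt n k) (pt n (k + 1))).indicator (fun _ => 1) t
        ≤ ∑ k ∈ Finset.range (2 ^ n), eVariationOn u (Icc (pt n k) (pt n (k + 1))) := by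
          refine Finset.sum_le_sum fun k hk => ?_
          rw [lintegral_indicator (measurableSet_piece hu (Finset.mem_range.1 hk))]
          simp only [lintegral_const, MeasurableSet.univ, Measure.restrict_apply, univ_inter,
            one_mul]
          exact volume_image_le _ _
      _ = eVariationOn u (Icc (pt n 0) (pt n (2 ^ n))) := eVariationOn.sum' u (pt_mono n)
      _ = eVariationOn u (Icc 0 1) := by rw [pt_zero, pt_last]
  · intro k hk
    exact (measurable_const.indicator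
      (measurableSet_piece hu (Finset.mem_range.1 hk))).aemeasurable

theorem exists_piece {s : ℝ} (hs : s ∈ Icc (0:ℝ) 1) (n : ℕ) :
    ∃ k < 2 ^ n, s ∈ Icc (pt n k) (pt n (k + 1)) := by
  have h2 : (0:ℝ) < 2 ^ n := by positivity
  rcases eq_or_lt_of_le hs.2 with h1 | h1
  · refine ⟨2 ^ n - 1, Nat.sub_lt (by positivity) one_pos, ?_⟩
    have h3 : 2 ^ n - 1 + 1 = 2 ^ n := Nat.sub_add_cancel Nat.one_le_two_pow
    rw [h3, pt_last, h1]
    refine ⟨?_, le_rfl⟩
    rw [← pt_last n]
    exact pt_mono n (Nat.sub_le _ _)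
  · refine ⟨⌊s * 2 ^ n⌋₊, ?_, ?_, ?_⟩
    · rw [Nat.floor_lt (by have := hs.1; positivity)]
      push_cast
      nlinarith
    · unfold pt
      rw [div_le_iff₀ h2]
      exact Nat.floor_le (by have := hs.1; positivity)
    · unfold pt
      rw [le_div_iff₀ h2]
      push_cast
      exact (Nat.lt_floor_add_one _).le

theorem card_le_cnt {u : ℝ → ℝ} {t : ℝ} {S : Finset ℝ}
    (hS : ∀ s ∈ S, s ∈ Icc (0:ℝ) 1 ∧ u s = t) {n : ℕ}
    (hn : ∀ s ∈ S, ∀ s' ∈ S, s ≠ s' → (1:ℝ) / 2 ^ n < |s - s'|) :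
    (S.card : ENNReal) ≤ cnt u n t := by
  classical
  choose! K hK1 hK2 using fun (s : ℝ) (hs : s ∈ S) => exists_piece (hS s hs).1 n
  have hinj : Set.InjOn K S := by
    intro s hs s' hs' hss
    by_contra hne
    have h1 := hK2 s hs
    have h2 := hK2 s' hs'
    rw [← hss] at h2
    have h3 : pt n (K s + 1) - pt n (K s) = 1 / 2 ^ n := by
      unfold pt; push_cast; ring
    have h4 : |s - s'| ≤ 1 / 2 ^ n := by
      rw [← h3, abs_le]
      constructor <;> linarith [h1.1, h1.2, h2.1, h2.2]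
    exact absurd (hn s hs s' hs' hne) (not_lt.2 h4)
  have hsub : S.image K ⊆ Finset.range (2 ^ n) := by
    intro k hk
    obtain ⟨s, hs, rfl⟩ := Finset.mem_image.1 hk
    exact Finset.mem_range.2 (hK1 s hs)
  calc (S.card : ENNReal) = ((S.image K).card : ENNReal) := by
        rw [Finset.card_image_of_injOn hinj]
    _ = ∑ k ∈ S.image K, (1 : ENNReal) := by simp
    _ = ∑ k ∈ S.image K, (u '' Icc (pt n k) (pt n (k + 1))).indicator (fun _ => 1) t := by
        refine Finset.sum_congr rfl fun k hk => ?_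
        obtain ⟨s, hs, rfl⟩ := Finset.mem_image.1 hk
        rw [indicator_of_mem]
        exact ⟨s, hK2 s hs, (hS s hs).2⟩
    _ ≤ cnt u n t := Finset.sum_le_sum_of_subset hsub

/-- **Banach indicatrix**, as an upper bound. -/
theorem exists_indicatrix_le {u : ℝ → ℝ} (hu : ContinuousOn u (Icc 0 1)) :
    ∃ N : ℝ → ENNReal, Measurable N ∧ ∫⁻ t, N t ≤ eVariationOn u (Icc 0 1) ∧
      ∀ t, ∀ S : Finset ℝ, (∀ s ∈ S, s ∈ Icc (0:ℝ) 1 ∧ u s = t) → (S.card : ENNReal) ≤ N t := by
  refine ⟨fun t => liminf (fun n => cnt u n t) atTop, ?_, ?_, ?_⟩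
  · exact Measurable.liminf fun n => measurable_cnt hu n
  · refine (lintegral_liminf_le fun n => measurable_cnt hu n).trans ?_
    refine liminf_le_of_le (by isBoundedDefault) ?_
    intro b hb
    obtain ⟨n, hn⟩ := hb.exists
    exact hn.trans (lintegral_cnt_le hu n)
  · intro t S hS
    refine le_liminf_of_le (by isBoundedDefault) ?_
    have h1 : ∀ s ∈ S, ∀ s' ∈ S, s ≠ s' → ∀ᶠ n : ℕ in atTop, (1:ℝ) / 2 ^ n < |s - s'| := by
      intro s _ s' _ hne
      have h2 : Tendsto (fun n : ℕ => (1:ℝ) / 2 ^ n) atTop (𝓝 0) := by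
        have := tendsto_pow_atTop_nhds_zero_of_lt_one (r := (1/2:ℝ)) (by norm_num) (by norm_num)
        simpa [one_div, inv_pow] using this
      exact h2.eventually_lt_const (abs_pos.2 (sub_ne_zero.2 hne))
    have h3 : ∀ᶠ n : ℕ in atTop, ∀ s ∈ S, ∀ s' ∈ S, s ≠ s' → (1:ℝ) / 2 ^ n < |s - s'| := by
      rw [Filter.eventually_all_finset]
      intro s hs
      rw [Filter.eventually_all_finset]
      intro s' hs'
      by_cases hne : s = s'
      · exact Filter.Eventually.of_forall fun n h => absurd hne h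
      · filter_upwards [h1 s hs s' hs' hne] with n hn _ using hn
    filter_upwards [h3] with n hn using card_le_cnt hS hn

theorem exists_indicatrix {u : ℝ → ℝ} (hu : ContinuousOn u (Icc 0 1))
    (hv : eVariationOn u (Icc 0 1) ≠ ⊤) :
    ∃ N : ℝ → ENNReal, Measurable N ∧ ∫⁻ t, N t ≠ ⊤ ∧
      ∀ t, ∀ S : Finset ℝ, (∀ s ∈ S, s ∈ Icc (0:ℝ) 1 ∧ u s = t) → (S.card : ENNReal) ≤ N t := by
  obtain ⟨N, h1, h2, h3⟩ := exists_indicatrix_le hu
  exact ⟨N, h1, ne_top_of_le_ne_top hv h2, h3⟩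

end Pool.Agent.Helper28.CN
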